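import Pool.Agent.Zk77.Spl.Ex

set_option autoImplicit false

/-!
# Splay trees are O(1)-competitive on almost all multiples modulo p of every request sequence

`Tr`, `keys`, `splay`, `costSplay` are those of `Pool.Agent.H581R2.SplayDef`; `optAny K Y` (`Pool.Agent.TH49.Spl.Defs`) is
the least cost of an execution for the requests `Y`, over all initial trees with the keys `K`; `rel σ X` is the sequence
`X` relabelled by the permutation `σ`.

(1) Let `p` be a prime and let `X` be ANY sequence of requests of the keys `0, ..., p - 1`, of any length. For
all `0 < δ ≤ 1`, for all but at most `δ (p - 1)` of the multipliers `s = 1, ..., p - 1`: splaying ANY relabelling of `X`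
(for instance `X` itself or `s X`), from any tree with these keys, costs at most
`(20000 / δ) (OPT(s X) + p) + 8 p log₂ p`, and at most `(100000 / δ) OPT(s X)` if every key is requested. Here
`s X` is the sequence of the residues modulo `p` of the numbers `s x`.

(2) The same for the members of every spread family of permutations, in particular of every pairwise uniform family,
for instance of the affine maps `x ↦ a x + b` of any finite field whose elements are numbered in any way.

The starting result `ThreeTransitiveRelabellings` needs three-wise uniform families (of at least `n (n-1) (n-2)` members)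
and has only `1 / 128` of the members; here `n - 1` relabellings suffice, and almost all of them are good.

Proof. Cut `X` into windows with `q ≈ (48 / δ) n / k` distinct keys each. By pairwise independence and Chebyshev's
inequality a window misses few of the `n / k` intervals of length `k` (position `s x + c`, a random shift `c` of the
dyadic scheme turns the uniformly distributed difference `s (x - y)` into pairwise independence); so for most nodes
of the level the left half is hit by one window and the right half by the next one: the interleave bound for OPT is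
at least `n / (4 k)` for each pair of windows. On the other side at most `q` requests in each window have a working
set number `≥ q`; so the interleave bounds add up to the working set bound for splaying.
-/

namespace Pool.Agent.Results.MP_c42954_lc.AlmostAllMultiples

open Pool.Agent.H581R2.Splay Pool.Agent.TH49.Spl Pool.Agent.N724.TW

/-- The differences of the images of any two keys are spread: the average of `(k - |σ x - σ y|)⁺` over the `σ ∈ S` is
at most `k ^ 2 / n`, for all `1 ≤ k ≤ n`. -/
def Spread {n : ℕ} (S : Finset (Equiv.Perm (Fin n))) : Prop :=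
  ∀ x y : Fin n, x ≠ y → ∀ k : ℕ, 1 ≤ k → k ≤ n →
    n * ∑ σ ∈ S, (k - Nat.dist (σ x) (σ y)) ≤ k ^ 2 * S.card

/-- For all `a ≠ b` and all `a' ≠ b'` the number of the `σ ∈ S` with `σ a = a'`, `σ b = b'` is `|S| / (n (n - 1))`. -/
def PairwiseUniform {n : ℕ} (S : Finset (Equiv.Perm (Fin n))) : Prop :=
  ∀ a b a' b' : Fin n, a ≠ b → a' ≠ b' → (S.filter fun σ => σ a = a' ∧ σ b = b').card * (n * (n - 1)) = S.card

/-- the affine map `x ↦ a x + b` of a finite field whose elements are numbered by `e` -/
def affinePerm {F : Type} [Field F] [Fintype F] (e : F ≃ Fin (Fintype.card F)) (z : Fˣ × F) :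
    Equiv.Perm (Fin (Fintype.card F)) :=
  e.symm.trans ((Units.mulLeft z.1).trans ((Equiv.addRight z.2).trans e))

theorem result :
    -- multiples modulo a prime
    (∀ (p : ℕ) [Fact p.Prime] (X : List (ZMod p)) (δ : ℝ), 0 < δ → δ ≤ 1 →
      ∃ B : Finset (ZMod p)ˣ, (B.card : ℝ) ≤ δ * (p - 1) ∧ ∀ s ∉ B, ∀ (ρ : Equiv.Perm (ZMod p)) (T : Tr),
        keys T = List.range p →
          (costSplay T (X.map fun x => (ρ x).val) : ℝ) ≤
            20000 / δ * (optAny (List.range p) (X.map fun x => ((s : ZMod p) * x).val) + p) +
              8 * (p * Real.logb 2 p) ∧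
          ((∀ x : ZMod p, x ∈ X) → (costSplay T (X.map fun x => (ρ x).val) : ℝ) ≤
            100000 / δ * optAny (List.range p) (X.map fun x => ((s : ZMod p) * x).val))) ∧
    -- spread families
    (∀ (n : ℕ) (S : Finset (Equiv.Perm (Fin n))), Spread S → ∀ (X : List (Fin n)) (δ : ℝ), 0 < δ → δ ≤ 1 →
      ∃ B ⊆ S, (B.card : ℝ) ≤ δ * S.card ∧ ∀ σ ∈ S, σ ∉ B → ∀ (ρ : Equiv.Perm (Fin n)) (T : Tr),
        keys T = List.range n →
          (costSplay T (rel ρ X) : ℝ) ≤ 20000 / δ * (optAny (List.range n) (rel σ X) + n) + 8 * (n * Real.logb 2 n) ∧
          ((∀ x : Fin n, x ∈ X) → (costSplay T (rel ρ X) : ℝ) ≤ 100000 / δ * optAny (List.range n) (rel σ X))) ∧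
    (∀ (n : ℕ) (S : Finset (Equiv.Perm (Fin n))), PairwiseUniform S → Spread S) ∧
    (∀ (F : Type) [Field F] [Fintype F] [DecidableEq F] (e : F ≃ Fin (Fintype.card F)),
      PairwiseUniform (Finset.univ.image (affinePerm e))) := by
  refine ⟨fun p _ X δ hδ hδ1 => Pool.Agent.Zk77.Spl.dilates p X δ hδ hδ1,
    fun n S hS X δ hδ hδ1 => Pool.Agent.Zk77.Spl.spread_main S hS X δ hδ hδ1,
    fun n S hS => Pool.Agent.Zk77.Spl.spread_of_uniform S hS,
    fun F _ _ _ e => Pool.Agent.Zk77.Spl.affine_uniform e⟩

end Pool.Agent.Results.MP_c42954_lc.AlmostAllMultiples
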