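import Pool.Agent.Zk77.Spl.Loc

set_option autoImplicit false

/-!
# Splay trees, low discrepancy relabellings and walks

`Tr`, `keys`, `splay`, `costSplay` are those of `Pool.Agent.H581R2.SplayDef`; `optAny K Y` (`Pool.Agent.TH49.Spl.Defs`) is
the least cost of an execution for the requests `Y`, over all initial trees with the keys `K`.

A sequence `X` of requests of the keys `0, ..., n - 1` is `K`-local if every set of consecutive requests with `q` distinct
keys has a diameter less than `K q`, the keys being placed on a cycle. For example every walk of arbitrary length on the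
cycle with steps of length at most `K` is `K`-local. (Such a sequence has a small optimal cost itself.)

A permutation `π` of the keys is `R`-scattered (`Boxes`) if its graph has at most `R` points in every box of area at most
`n`. Examples: all permutations of `b ^ D` keys whose graph is a `(0, D, 2)`-net in base `b` (`R = 2 b + 2`), in particular
the reversal of the `D` digits in base `b` (bit reversal for `b = 2`); permutations with `n ≤ R |x - y| |π x - π y|` for
all pairs of keys; the maps `x ↦ a x + c` modulo `n` if `‖a h / n‖ ≥ 1 / (R h)` for `1 ≤ h < n`, i.e. if the partial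
quotients of `a / n` are bounded.

(1) Let `π` be `R`-scattered and `X` `K`-local. Then splaying ANY relabelling `σ X` of `X` from any tree costs at most
`450 (1 + 2 R) (1 + log₂ (8 K (1 + 2 R))) (OPT(π X) + n) + 8 n log₂ n`, and at most
`2100 (1 + 2 R) (1 + log₂ (8 K (1 + 2 R))) OPT(π X)` if every key is requested. With `σ = π`: splay trees are
`O_(R, K)(1)`-competitive on `π X`. So each scattered relabelling of a local sequence has, up to a constant, the largest
optimal cost among all its relabellings, and splay trees serve it optimally.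

(2)-(6): the examples. (7) For all nets `π` in base `2` and all walks `X` on the cycle of the keys with steps `≤ K`
which visit all keys, the ratio is at most `220000 (1 + log₂ K)`.

Wilber's theorem on the bit reversal sequence is the case `X = 0, 1, ..., n - 1`, `π` = bit reversal.

Proof. For `x` in a window `W` of `X` with `q` distinct keys the keys `y` of `W` with `8 K q |π x - π y| < n` are in two
boxes of area at most `n`. So the windows of `π X` with `q` distinct keys have at most `2 R q` close pairs, and the ratio for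
sequences with few close pairs (`SpreadWorkingSets`, now for all relabellings) applies.
-/

namespace Pool.Agent.Results.MP_c42954_lc.LowDiscrepancyRelabellings

open Pool.Agent.H581R2.Splay Pool.Agent.TH49.Spl

/-- at most `R` points of the graph of `π` in every box `[a, a + L) × [b, b + M)` with `L M ≤ n` -/
def Boxes {n : ℕ} (π : Equiv.Perm (Fin n)) (R : ℕ) : Prop :=
  ∀ a b L M : ℕ, L * M ≤ n → (Finset.univ.filter (fun x : Fin n =>
    (a ≤ (x : ℕ) ∧ (x : ℕ) < a + L) ∧ b ≤ (π x : ℕ) ∧ (π x : ℕ) < b + M)).card ≤ R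

/-- the distance of two keys on the cycle `0, 1, ..., n - 1, 0` -/
def cdist (n x y : ℕ) : ℕ := min (Nat.dist x y) (n - Nat.dist x y)

/-- every set of consecutive requests with `q` distinct keys has a diameter less than `K q` on the cycle of the keys -/
def Local {n : ℕ} (K : ℕ) (X : List (Fin n)) : Prop :=
  ∀ U W V : List (Fin n), X = U ++ W ++ V → ∀ x ∈ W, ∀ y ∈ W, cdist n x y < K * W.toFinset.card

/-- a walk on the cycle of the keys with steps of length at most `K` -/
def Walk {n : ℕ} (K : ℕ) (X : List (Fin n)) : Prop := X.IsChain (fun x y : Fin n => cdist n x y ≤ K)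

/-- the sequence of requests, relabelled by `σ` -/
def rel {n : ℕ} (σ : Equiv.Perm (Fin n)) (X : List (Fin n)) : List ℕ := X.map fun x : Fin n => (σ x : ℕ)

/-- The graph of `π` is a `(0, D, 2)`-net in base `b`: each box of `b ^ t` consecutive keys and `b ^ s` consecutive values,
`t + s = D`, which begin at multiples of `b ^ t`, `b ^ s` contains only one point. -/
def Net (b D : ℕ) (π : Equiv.Perm (Fin (b ^ D))) : Prop :=
  ∀ t s : ℕ, t + s = D → ∀ x y : Fin (b ^ D), (x : ℕ) / b ^ t = (y : ℕ) / b ^ t →
    (π x : ℕ) / b ^ s = (π y : ℕ) / b ^ s → x = y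

/-- reversal of the `D` digits in base `b` -/
def rev (b : ℕ) : ℕ → ℕ → ℕ
  | 0, _ => 0
  | D + 1, x => (x % b) * b ^ D + rev b D (x / b)

lemma rev_eq (b : ℕ) : ∀ D x : ℕ, rev b D x = Pool.Agent.Zk77.Spl.revB b D x
  | 0, _ => rfl
  | D + 1, x => by
    rw [rev, Pool.Agent.Zk77.Spl.revB, rev_eq b D (x / b)]

theorem result :
    -- (1) the competitive ratio, and all relabellings
    (∀ (n R K : ℕ), 1 ≤ n → 1 ≤ K → ∀ π σ : Equiv.Perm (Fin n), Boxes π R → ∀ X : List (Fin n), Local K X →
      ∀ T : Tr, keys T = List.range n →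
        (costSplay T (rel σ X) : ℝ) ≤ 450 * (1 + 2 * (R : ℝ)) * (1 + Real.logb 2 (8 * K * (1 + 2 * R))) *
          (optAny (List.range n) (rel π X) + n) + 8 * (n * Real.logb 2 n) ∧
        ((∀ x : Fin n, x ∈ X) → (costSplay T (rel σ X) : ℝ) ≤
          2100 * (1 + 2 * (R : ℝ)) * (1 + Real.logb 2 (8 * K * (1 + 2 * R))) *
            optAny (List.range n) (rel π X))) ∧
    -- (2) walks are local
    (∀ (n K : ℕ), 1 ≤ K → ∀ X : List (Fin n), Walk K X → Local K X) ∧
    -- (3) nets
    (∀ b D : ℕ, 2 ≤ b → ∀ π : Equiv.Perm (Fin (b ^ D)), Net b D π → Boxes π (2 * b + 2)) ∧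
    -- (4) reversal of the digits
    (∀ b D : ℕ, 1 ≤ b → ∃ π : Equiv.Perm (Fin (b ^ D)), (∀ x, (π x : ℕ) = rev b D x) ∧ Net b D π) ∧
    -- (5) pairs far apart in one of the coordinates
    (∀ (n R : ℕ), 1 ≤ R → ∀ π : Equiv.Perm (Fin n),
      (∀ x y : Fin n, x ≠ y → n ≤ R * (Nat.dist (x : ℕ) (y : ℕ) * Nat.dist (π x : ℕ) (π y : ℕ))) → Boxes π R) ∧
    -- (6) affine maps modulo `n`
    (∀ (n a c R : ℕ), 1 ≤ n → 1 ≤ R →
      (∀ h : ℕ, 1 ≤ h → h < n → ∀ z : ℤ, (n : ℤ) ≤ R * h * |(a : ℤ) * h - n * z|) →
      ∃ π : Equiv.Perm (Fin n), (∀ x : Fin n, (π x : ℕ) = (a * x + c) % n) ∧ Boxes π R) ∧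
    -- (7) nets in base `2` and walks
    (∀ (D K : ℕ), 1 ≤ K → ∀ π σ : Equiv.Perm (Fin (2 ^ D)), Net 2 D π → ∀ X : List (Fin (2 ^ D)), Walk K X →
      (∀ x, x ∈ X) → ∀ T : Tr, keys T = List.range (2 ^ D) →
        (costSplay T (rel σ X) : ℝ) ≤ 220000 * (1 + Real.logb 2 K) * optAny (List.range (2 ^ D)) (rel π X)) := by
  refine ⟨fun n R K hn hK π σ hπ X hX T hT => ?_, fun n K hK X hX => ?_, fun b D hb π hπ => ?_, fun b D hb => ?_,
    fun n R hR π h => ?_, fun n a c R hn hR h => ?_, fun D K hK π σ hπ X hX hall T hT => ?_⟩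
  · exact Pool.Agent.Zk77.Spl.local_ratio hT hn π σ hπ hK X hX
  · exact Pool.Agent.Zk77.Spl.walk_local K hK X hX
  · exact Pool.Agent.Zk77.Spl.net_boxes hb π hπ
  · obtain ⟨π, hπ⟩ := Pool.Agent.Zk77.Spl.exists_rev hb D
    exact ⟨π, fun x => by rw [hπ, rev_eq], Pool.Agent.Zk77.Spl.rev_net hb π hπ⟩
  · exact Pool.Agent.Zk77.Spl.scattered_boxes π hR h
  · exact Pool.Agent.Zk77.Spl.exists_affine hn a c hR h
  · have h1 := Pool.Agent.Zk77.Spl.net_boxes (le_refl 2) π hπ
    have h2 := (Pool.Agent.Zk77.Spl.local_ratio hT Nat.one_le_two_pow π σ h1 hK X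
      (Pool.Agent.Zk77.Spl.walk_local K hK X hX)).2 hall
    refine h2.trans ?_
    exact mul_le_mul_of_nonneg_right (Pool.Agent.Zk77.Spl.net_const (by exact_mod_cast hK)) (Nat.cast_nonneg _)

end Pool.Agent.Results.MP_c42954_lc.LowDiscrepancyRelabellings
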