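import Pool.Agent.Zk77.Spl.Lfsr
import Pool.Agent.Zk77.Spl.Kron

set_option autoImplicit false

/-!
# Splay trees on explicit pseudorandom sequences

`Tr`, `keys`, `splay`, `costSplay` are those of `Pool.Agent.H581R2.SplayDef`; `optAny K Y` (`Pool.Agent.TH49.Spl.Defs`) is
the least cost of an execution for the requests `Y`, over all initial trees with the keys `K`. `Served r n Y` means that
splaying the sequence `Y` of keys `0, ..., n - 1` from any tree with these keys costs at most `r OPT(Y)`.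

(1) Bounded pair correlations. Let `y_0, y_1, ..., y_(M-1) < n`, `n ≤ 2 M`, `H ≤ n, M / 2`, `C ≥ 1`, and suppose that for all lags
`1 ≤ h < H` and all scales `k = 2 ^ e` from `n / (8 C H)` to `n` at most `C M k / n` of the `s < M - h` are such that `y_s` and
`y_(s+h)` are in the same interval `[i k, (i + 1) k)` (for random sequences their expected number is `(M - h) k / n`). Then
`OPT ≥ M log₂ H / (1000 (1 + log₂ C))`. The competitive ratio of splaying is at most `23000 (1 + log₂ (C n / H))` and, if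
`H ≥ n ^ θ`, at most `(23000 / θ) (1 + log₂ C)`.

(2) Every Costas permutation (all vectors between two of its points are different) has competitive ratio
at most `85000`, so its optimal cost is of the order `n log n`.

(3) The values modulo a prime `p` of any rational function of degree at most `d < p` which is not a linear polynomial, at
`0, 1, ..., M - 1`, `M ≥ p` (`1 / 0 = 0`): ratio at most `160000 (1 + log₂ d)`.

(4) `c g ^ s + b` modulo a prime `p`, `s < M`, `g` of order `t ≤ M`, `M ≥ p / 2`: ratio at most `110000 (1 + log₂ (p / t))`.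

(5) The same for `c g ^ s + b` in the field with `n = 2 ^ D` elements, the elements written as `D`-bit numbers with respect
to any basis (the states of a linear feedback shift register).

(6) The arithmetic progression `a s + b` modulo `n`, `s < M`, `M ≥ n`: ratio at most `2100 (1 + log₂ R)`, if
`‖a h / n‖ ≥ 1 / (R h)` for all `1 ≤ h < n` (`‖ ‖` distance to the nearest integer; so `R - 2` may be the largest partial
quotient of `a / n`).

Proof. (1): among the windows of `q = 2 ^ m ≤ H` consecutive requests at least `q / 8` intervals of length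
`n / (8 C q)` are met on average, by the second moment; but at most `q / 16` intervals of the length `n / q` times `8`. So
there are `q / 16` nodes between these scales both halves of which are met by the window. (6) uses the ratio for
separated working sets, `Pool.Agent.Zk77.Spl.sep_ratio`.
-/

namespace Pool.Agent.Results.MP_c42954_lc.PseudorandomSequences

open Pool.Agent.H581R2.Splay Pool.Agent.TH49.Spl

/-- splaying `Y` from any tree with the keys `0, ..., n - 1` costs at most `r` times the optimum -/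
def Served (r : ℝ) (n : ℕ) (Y : List ℕ) : Prop :=
  ∀ T : Tr, keys T = List.range n → (costSplay T Y : ℝ) ≤ r * optAny (List.range n) Y

/-- the first `M` members of a sequence -/
def seq (M : ℕ) (y : ℕ → ℕ) : List ℕ := (List.range M).map y

/-- number of the `s < M - h` such that `y s` and `y (s + h)` are in the same interval `[i k, (i + 1) k)` -/
def pairs (M : ℕ) (y : ℕ → ℕ) (h k : ℕ) : ℕ :=
  ((Finset.range (M - h)).filter (fun s => y s / k = y (s + h) / k)).card

/-- The vectors `(j - i, σ j - σ i)`, `i < j`, are different. -/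
def Costas {n : ℕ} (σ : Equiv.Perm (Fin n)) : Prop :=
  ∀ i j i' j' : Fin n, i < j → i' < j' → (j : ℤ) - (i : ℤ) = (j' : ℤ) - (i' : ℤ) →
    ((σ j : ℕ) : ℤ) - ((σ i : ℕ) : ℤ) = ((σ j' : ℕ) : ℤ) - ((σ i' : ℕ) : ℤ) → i = i'

theorem result :
    -- (1) bounded pair correlations
    (∀ (n M H : ℕ), 1 ≤ n → n ≤ 2 * M → 1 ≤ H → H ≤ n → 2 * H ≤ M → ∀ y : ℕ → ℕ, (∀ s, y s < n) →
      ∀ C : ℝ, 1 ≤ C → (∀ h, 1 ≤ h → h < H → ∀ e, (n : ℝ) ≤ 8 * C * H * 2 ^ e → 2 ^ e ≤ n →
        (n : ℝ) * pairs M y h (2 ^ e) ≤ C * M * 2 ^ e) →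
      (M : ℝ) * Real.logb 2 H ≤ 1000 * (1 + Real.logb 2 C) * optAny (List.range n) (seq M y) ∧
      Served (23000 * (1 + Real.logb 2 (C * n / H))) n (seq M y) ∧
      ∀ θ : ℝ, 0 < θ → θ ≤ 1 → (n : ℝ) ^ θ ≤ H → Served (23000 / θ * (1 + Real.logb 2 C)) n (seq M y)) ∧
    -- (2) Costas permutations
    (∀ (n : ℕ), 2 ≤ n → ∀ σ : Equiv.Perm (Fin n), Costas σ → Served 85000 n (List.ofFn fun i => (σ i : ℕ))) ∧
    -- (3) rational functions modulo a prime
    (∀ (p : ℕ) [Fact p.Prime] (f g : Polynomial (ZMod p)) (d : ℕ), 1 ≤ d → d < p → f.natDegree ≤ d → g.natDegree ≤ d →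
      IsCoprime f g → 2 ≤ f.natDegree ∨ 1 ≤ g.natDegree → ∀ M : ℕ, p ≤ M →
      Served (160000 * (1 + Real.logb 2 d)) p
        (seq M fun s : ℕ => (f.eval (s : ZMod p) * (g.eval (s : ZMod p))⁻¹).val)) ∧
    -- (4) powers modulo a prime
    (∀ (p : ℕ) [Fact p.Prime] (g : (ZMod p)ˣ) (t : ℕ), orderOf g = t → 2 ≤ t → ∀ c b : ZMod p, c ≠ 0 →
      ∀ M : ℕ, t ≤ M → p ≤ 2 * M →
      Served (110000 * (1 + Real.logb 2 (p / t))) p (seq M fun s => (c * (g : ZMod p) ^ s + b).val)) ∧
    -- (5) powers in fields with `2 ^ D` elements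
    (∀ (F : Type) [Field F] [Fintype F] (D : ℕ), Fintype.card F = 2 ^ D → ∀ φ : F → ℕ, Function.Injective φ →
      (∀ x, φ x < 2 ^ D) → (∀ x x', φ (x + x') = φ x ^^^ φ x') → ∀ (g : Fˣ) (t : ℕ), orderOf g = t → 2 ≤ t →
      ∀ c b : F, c ≠ 0 → ∀ M : ℕ, t ≤ M → 2 ^ D ≤ 2 * M →
      Served (110000 * (1 + Real.logb 2 (2 ^ D / t))) (2 ^ D) (seq M fun s => φ (c * (g : F) ^ s + b))) ∧
    -- (6) arithmetic progressions modulo `n`
    (∀ (n a b : ℕ), 1 ≤ n → ∀ R : ℝ, 1 ≤ R →
      (∀ h : ℕ, 1 ≤ h → h < n → ∀ z : ℤ, (n : ℝ) ≤ R * h * |(a : ℝ) * h - n * z|) → ∀ M : ℕ, n ≤ M →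
      Served (2100 * (1 + Real.logb 2 R)) n (seq M fun s => (a * s + b) % n)) := by
  refine ⟨fun n M H hn hnM hH hHn hHM y hy C hC hp => ⟨?_, fun T hT => ?_, fun θ hθ hθ1 hHθ T hT => ?_⟩,
    fun n hn σ hσ T hT => ?_, fun p _ f g d hd hdp hfd hgd hfg h2 M hM T hT => ?_,
    fun p _ g t ht ht2 c b hc M hM hM2 T hT => ?_,
    fun F _ _ D hF φ hinj hlt hadd g t ht ht2 c b hc M hM hM2 T hT => ?_,
    fun n a b hn R hR hbad M hM T hT => ?_⟩
  · obtain ⟨T, hT⟩ : ∃ T : Tr, keys T = List.range n := Pool.Agent.Zk77.Spl.exists_tree _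
    exact Pool.Agent.Zk77.Spl.opt_pairs hT hn hnM hH hHn hHM y hy hC hp
  · exact Pool.Agent.Zk77.Spl.ratio_pairs3 hT hn hnM hH hHn hHM y hy hC hp
  · refine Pool.Agent.Zk77.Spl.ratio_pairs hT hn hnM hH hHn hHM y hy hC hp hθ hθ1 ?_
    have hn0 : (0 : ℝ) < n := by exact_mod_cast hn
    rw [← Real.logb_rpow_eq_mul_logb_of_pos hn0]
    exact Real.logb_le_logb_of_le (by norm_num) (by positivity) hHθ
  · exact Pool.Agent.Zk77.Spl.costas_ratio hn σ hσ hT
  · exact Pool.Agent.Zk77.Spl.ratfun_ratio p f g d hd hdp hfd hgd hfg h2 M hM hT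
  · exact Pool.Agent.Zk77.Spl.power_ratio p g t ht ht2 c b hc M hM hM2 hT
  · exact Pool.Agent.Zk77.Spl.lfsr_ratio D hF φ hinj hlt hadd g t ht ht2 c b hc M hM hM2 hT
  · exact Pool.Agent.Zk77.Spl.ap_ratio a b hn hbad hM hR hT

end Pool.Agent.Results.MP_c42954_lc.PseudorandomSequences
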