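import Pool.Agent.Zk77.Spl.Sep

set_option autoImplicit false

/-!
# The competitive ratio of splay trees and the spread of the working sets

`Tr`, `keys`, `splay`, `costSplay` are those of `Pool.Agent.H581R2.SplayDef`; `optAny K Y` (`Pool.Agent.TH49.Spl.Defs`) is
the least cost of an execution for the requests `Y`, over all initial trees with the keys `K`.

Let `X` be any sequence of requests of the keys `0, ..., n - 1`. For every `q` it is divided into consecutive windows
with exactly `q` distinct keys each (and a rest with fewer). These are the working sets of `X` of size `q`.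

(1) Let `n ≤ 2 ^ D < 2 n`, `r ≥ 0`, and let the windows with `q = 2 ^ m` distinct keys (`1 ≤ m ≤ D - r`) meet, on average over
all these windows, at least `ρ q` of the intervals of length `2 ^ (D - r - m) ≈ n / (2 ^ r q)`. Then splaying costs at
most `(150 / ρ) (1 + r + log₂ (1 / ρ)) (OPT(X) + n) + 8 n log₂ n`, and at most
`(700 / ρ) (1 + r + log₂ (1 / ρ)) OPT(X)` if every key is requested.

(2) Let `R ≥ 1`, `C ≥ 0`. If for each `q = 2 ^ m ≤ n` the windows with `q` distinct keys contain on average at most `C q`
ordered pairs of distinct keys `x, y` with `R q |x - y| < n`, the ratio is at most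
`2100 (1 + C) (1 + log₂ (R (1 + C)))`.

(3) If any two distinct keys `x, y` of any set of consecutive requests with `q` distinct keys satisfy
`R q |x - y| ≥ n`, then splay trees are `2100 (1 + log₂ R)`-competitive on `X`.

No hypothesis is made on the sizes of the working sets, on the multiplicities or on the length of `X`.

Proof. A window with `q` distinct keys meets at least `ρ q` of the intervals of length `n / (2 ^ r q)`, but at most
`ρ q / 2` of the intervals which are `J = r + log₂ (2 / ρ)` dyadic scales longer. So on the scales between them there are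
`ρ q / 2` nodes both halves of which are met by the window: they contribute to the interleave bound. Every
scale is used by at most `J` sizes of windows. Hence `J` times the interleave bound is at least `ρ / 2` times the sum
over `m` of the total numbers of the distinct keys in the windows with `2 ^ m` distinct keys, which is at least the
working set bound for splaying.
-/

namespace Pool.Agent.Results.MP_c42954_lc.SpreadWorkingSets

open Pool.Agent.H581R2.Splay Pool.Agent.TH49.Spl

/-- `Ws` is a division of `X` into consecutive windows with exactly `q` distinct keys each and a rest with fewer than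
`q` distinct keys. -/
def Division {n : ℕ} (X : List (Fin n)) (q : ℕ) (Ws : List (List (Fin n))) : Prop :=
  (∀ W ∈ Ws, W.toFinset.card = q) ∧ ∃ rest : List (Fin n), X = Ws.flatten ++ rest ∧ rest.toFinset.card < q

/-- number of the intervals `[i k, (i + 1) k)` which contain keys of `W` -/
def met {n : ℕ} (k : ℕ) (W : List (Fin n)) : ℕ := (W.toFinset.image fun x : Fin n => (x : ℕ) / k).card

/-- number of the ordered pairs of distinct keys `x, y` of `W` with `R q |x - y| < n` -/
noncomputable def closePairs {n : ℕ} (R : ℝ) (q : ℕ) (W : List (Fin n)) : ℕ :=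
  open Classical in (W.toFinset.offDiag.filter
    (fun z => R * q * (Nat.dist (z.1 : ℕ) (z.2 : ℕ)) < n)).card

/-- the sequence of requests -/
def req {n : ℕ} (X : List (Fin n)) : List ℕ := X.map fun x : Fin n => (x : ℕ)

theorem result :
    -- (0) divisions exist
    (∀ (n q : ℕ) (X : List (Fin n)), 1 ≤ q → ∃ Ws, Division X q Ws) ∧
    -- (1) the ratio and the average spread of the windows
    (∀ (n D r : ℕ), n ≤ 2 ^ D → 2 ^ D < 2 * n → ∀ (X : List (Fin n)) (Ws : ℕ → List (List (Fin n))),
      (∀ m, Division X (2 ^ m) (Ws m)) → ∀ ρ : ℝ, 0 < ρ → ρ ≤ 1 →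
      ρ * ∑ m ∈ Finset.Icc 1 (D - r), (2 : ℝ) ^ m * (Ws m).length ≤
        ∑ m ∈ Finset.Icc 1 (D - r), (((Ws m).map (met (2 ^ (D - r - m)))).sum : ℝ) →
      ∀ T : Tr, keys T = List.range n →
        (costSplay T (req X) : ℝ) ≤ 150 / ρ * (1 + r + Real.logb 2 (1 / ρ)) * (optAny (List.range n) (req X) + n) +
          8 * (n * Real.logb 2 n) ∧
        ((∀ x : Fin n, x ∈ X) →
          (costSplay T (req X) : ℝ) ≤ 700 / ρ * (1 + r + Real.logb 2 (1 / ρ)) * optAny (List.range n) (req X))) ∧
    -- (2) the ratio and the close pairs in the windows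
    (∀ (n : ℕ), 1 ≤ n → ∀ (X : List (Fin n)) (Ws : ℕ → List (List (Fin n))),
      (∀ m, Division X (2 ^ m) (Ws m)) → ∀ R C : ℝ, 1 ≤ R → 0 ≤ C →
      (∀ m, 1 ≤ m → 2 ^ m ≤ n → (((Ws m).map (closePairs R (2 ^ m))).sum : ℝ) ≤ C * (2 ^ m * (Ws m).length)) →
      ∀ T : Tr, keys T = List.range n →
        (costSplay T (req X) : ℝ) ≤ 450 * (1 + C) * (1 + Real.logb 2 (R * (1 + C))) *
          (optAny (List.range n) (req X) + n) + 8 * (n * Real.logb 2 n) ∧
        ((∀ x : Fin n, x ∈ X) →
          (costSplay T (req X) : ℝ) ≤ 2100 * (1 + C) * (1 + Real.logb 2 (R * (1 + C))) *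
            optAny (List.range n) (req X))) ∧
    -- (3) separated working sets
    (∀ (n : ℕ), 1 ≤ n → ∀ (X : List (Fin n)) (R : ℝ), 1 ≤ R →
      (∀ U W V : List (Fin n), X = U ++ W ++ V → ∀ x ∈ W, ∀ y ∈ W, x ≠ y →
        (n : ℝ) ≤ R * W.toFinset.card * Nat.dist (x : ℕ) (y : ℕ)) →
      ∀ T : Tr, keys T = List.range n →
        (costSplay T (req X) : ℝ) ≤ 450 * (1 + Real.logb 2 R) * (optAny (List.range n) (req X) + n) +
          8 * (n * Real.logb 2 n) ∧
        ((∀ x : Fin n, x ∈ X) →
          (costSplay T (req X) : ℝ) ≤ 2100 * (1 + Real.logb 2 R) * optAny (List.range n) (req X))) := by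
  refine ⟨fun n q X hq => ?_, fun n D r hD hD2 X Ws hWs ρ hρ hρ1 hs T hT => ?_,
    fun n hn X Ws hWs R C hR hC hs T hT => ?_, fun n hn X R hR hs T hT => ?_⟩
  · obtain ⟨Ws, rest, h1, h2, h3⟩ := Pool.Agent.Zk77.Spl.windows q hq X.length X le_rfl
    exact ⟨Ws, h2, rest, h1, h3⟩
  · choose hW rest hX hr using hWs
    exact Pool.Agent.Zk77.Spl.spread_ratio hT X hD hD2 Ws rest hX hW hr hρ hρ1 hs
  · choose hW rest hX hr using hWs
    exact Pool.Agent.Zk77.Spl.close_ratio hT X hn Ws rest hX hW hr hR hC hs
  · exact Pool.Agent.Zk77.Spl.sep_ratio hT X hn hR hs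

end Pool.Agent.Results.MP_c42954_lc.SpreadWorkingSets
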